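import Pool.Agent.Helper97.TN.St2

/-!
# Project BC+ (MP_6090f9_nt), module B3 (base change, assembly)

Some private lemmas are copied from `Pool/Agent/Helper45/BC/M_C8.lean` and `Pool/Agent/Helper63/TN/M_M2.lean`.
-/

set_option autoImplicit false

namespace Pool.Agent.Helper78.TN

open Pool.Agent.Helper97.TN Pool.Agent.Helper96.BC Pool.Agent.Helper95.TT
open NumberField IsDedekindDomain Polynomial Filter Topology
open scoped Classical

/-! ## Finite groups -/

section grp

variable {G : Type} [Group G] [Finite G]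

private theorem avg_add (φ ψ : G → ℝ) : avg (fun g => φ g + ψ g) = avg φ + avg ψ := by
  have := Fintype.ofFinite G
  unfold avg
  rw [finsum_eq_sum_of_fintype, finsum_eq_sum_of_fintype, finsum_eq_sum_of_fintype,
    Finset.sum_add_distrib, add_div]

private theorem avg_sub (φ ψ : G → ℝ) : avg (fun g => φ g - ψ g) = avg φ - avg ψ := by
  have := Fintype.ofFinite G
  unfold avg
  rw [finsum_eq_sum_of_fintype, finsum_eq_sum_of_fintype, finsum_eq_sum_of_fintype,
    Finset.sum_sub_distrib, sub_div]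

private theorem avg_const (a : ℝ) : avg (fun _ : G => a) = a := by
  have := Fintype.ofFinite G
  unfold avg
  rw [finsum_eq_sum_of_fintype]
  have h : ((Nat.card G : ℕ) : ℝ) ≠ 0 := by
    have := Nat.card_pos (α := G)
    positivity
  rw [Finset.sum_const, Finset.card_univ, ← Nat.card_eq_fintype_card, nsmul_eq_mul,
    mul_div_cancel_left₀ _ h]

private theorem burnside (X : Type) [Finite X] [MulAction G X] (hne : Nonempty X)
    (htr : ∀ x y : X, ∃ g : G, g • x = y) : avg (fun g : G => fx X g) = 1 := by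
  have := Fintype.ofFinite G
  have := Fintype.ofFinite X
  have := Fintype.ofFinite (Quotient (MulAction.orbitRel G X))
  have h1 := MulAction.sum_card_fixedBy_eq_card_orbits_mul_card_group G X
  have h2 : Fintype.card (Quotient (MulAction.orbitRel G X)) = 1 := by
    rw [Fintype.card_eq_one_iff]
    obtain ⟨x⟩ := hne
    refine ⟨Quotient.mk _ x, fun y => ?_⟩
    induction y using Quotient.inductionOn with
    | _ y =>
      apply Quotient.sound
      obtain ⟨g, hg⟩ := htr x y
      exact ⟨g, hg⟩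
  rw [h2, one_mul] at h1
  unfold avg
  rw [finsum_eq_sum_of_fintype, Nat.card_eq_fintype_card, ← h1]
  have h3 : ∀ g : G, fx X g = ((Fintype.card (MulAction.fixedBy X g) : ℕ) : ℝ) := by
    intro g
    unfold fx
    rw [← Nat.card_eq_fintype_card]
    rfl
  rw [Finset.sum_congr rfl fun g _ => h3 g, ← Nat.cast_sum]
  rw [div_self]
  rw [h1]
  have := Fintype.card_pos (α := G)
  positivity

private theorem fx_prod (X Y : Type) [MulAction G X] [MulAction G Y] (g : G) :
    fx (X × Y) g = fx X g * fx Y g := by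
  unfold fx
  rw [← Nat.cast_mul, ← Nat.card_prod]
  congr 1
  refine Nat.card_congr ((Equiv.subtypeEquivRight fun p => ?_).trans
    (Equiv.subtypeProdEquivProd (p := fun x : X => g • x = x) (q := fun y : Y => g • y = y)))
  rw [Prod.ext_iff, Prod.smul_fst, Prod.smul_snd]

private theorem bdd (φ : G → ℝ) : ∃ T : ℝ, 0 ≤ T ∧ ∀ g, |φ g| ≤ T := by
  have := Fintype.ofFinite G
  refine ⟨∑ g, |φ g|, Finset.sum_nonneg fun _ _ => abs_nonneg _, fun g => ?_⟩
  exact Finset.single_le_sum (f := fun g => |φ g|) (fun _ _ => abs_nonneg _) (Finset.mem_univ g)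

omit [Finite G] in
private theorem div_sub_const (φ : G → ℝ) (a : ℝ) (h : Div φ) :
    Div (fun g => φ g - a) := fun g x n hn => by
  show φ (x * g ^ n * x⁻¹) - a = φ g - a
  rw [h g x n hn]

omit [Finite G] in
private theorem div_mul (φ ψ : G → ℝ) (h : Div φ) (h' : Div ψ) :
    Div (fun g => φ g * ψ g) := fun g x n hn => by
  show φ (x * g ^ n * x⁻¹) * ψ (x * g ^ n * x⁻¹) = φ g * ψ g
  rw [h g x n hn, h' g x n hn]

end grp

/-! ## The action on the embeddings -/

section emb

variable (k K L : Type) [Field k] [Field K] [Field L] [Algebra k K] [Algebra k L]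

/-- the action of the Galois group on the embeddings -/
@[instance_reducible]
private def act : MulAction (L ≃ₐ[k] L) (K →ₐ[k] L) where
  smul g x := (g : L →ₐ[k] L).comp x
  one_smul x := by ext y; rfl
  mul_smul g h x := by ext y; rfl

private theorem act_fx (g : L ≃ₐ[k] L) :
    @fx (L ≃ₐ[k] L) _ (K →ₐ[k] L) (act k K L) g = fxK k K g := by
  unfold fx fxK
  congr 1
  refine Nat.card_congr (Equiv.subtypeEquivRight fun x => ?_)
  constructor
  · intro h y
    exact congrArg (fun z : K →ₐ[k] L => z y) h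
  · intro h
    exact AlgHom.ext h

variable {k K L}

private theorem trans_emb [Normal k L] (x x' : K →ₐ[k] L) :
    ∃ g : L ≃ₐ[k] L, ∀ z, g (x z) = x' z := by
  let e1 : K ≃ₐ[k] x.fieldRange := AlgEquiv.ofInjectiveField x
  let e2 : K ≃ₐ[k] x'.fieldRange := AlgEquiv.ofInjectiveField x'
  let φ : x.fieldRange →ₐ[k] x'.fieldRange :=
    (e2 : K →ₐ[k] x'.fieldRange).comp (e1.symm : x.fieldRange →ₐ[k] K)
  have h : ∀ z : K, (φ.liftNormal L) (x z) = x' z := by
    intro z
    have h1 := AlgHom.liftNormal_commutes φ L (e1 z)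
    have h2 : φ (e1 z) = e2 z := by
      show e2 (e1.symm (e1 z)) = e2 z
      rw [AlgEquiv.symm_apply_apply]
    rw [h2] at h1
    exact h1
  exact ⟨AlgEquiv.ofBijective (φ.liftNormal L) (Algebra.IsAlgebraic.algHom_bijective _), h⟩

end emb

/-! ## Series -/

private lemma wt_nonneg {k : Type} [Field k] [NumberField k] (s : ℝ) (v : Pr k) : 0 ≤ wt s v :=
  mul_nonneg (Real.log_natCast_nonneg _) (Real.rpow_nonneg (Nat.cast_nonneg _) _)

private lemma wt_le_one {k : Type} [Field k] [NumberField k] (h2 : ∀ v : Pr k, 2 ≤ q v)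
    (s : ℝ) (hs : 1 ≤ s) (v : Pr k) : wt s v ≤ 1 := by
  have hq : (2 : ℝ) ≤ (q v : ℝ) := by exact_mod_cast h2 v
  have h1 : Real.log (q v) ≤ (q v : ℝ) := Real.log_le_self (by linarith)
  have h3 : (q v : ℝ) ^ (-s) ≤ (q v : ℝ) ^ (-1 : ℝ) :=
    Real.rpow_le_rpow_of_exponent_le (by linarith) (by linarith)
  have h4 : (0 : ℝ) ≤ (q v : ℝ) ^ (-s) := Real.rpow_nonneg (by linarith) _
  calc wt s v = Real.log (q v) * (q v : ℝ) ^ (-s) := rfl
    _ ≤ (q v : ℝ) * (q v : ℝ) ^ (-1 : ℝ) :=
        mul_le_mul h1 h3 h4 (by linarith)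
    _ = 1 := by
        rw [Real.rpow_neg_one]
        exact mul_inv_cancel₀ (by linarith)

private lemma term_eq {k : Type} [Field k] [NumberField k] (h2 : ∀ v : Pr k, 2 ≤ q v)
    (R : Set (Pr k)) (b : Pr k → ℝ) (s : ℝ) :
    (fun v : Pr k => if v ∈ R then (0 : ℝ) else b v * Real.log (q v) * (q v : ℝ) ^ (-s)) =
      fun v => (if v ∈ R then (0 : ℝ) else b v / q v) * wt (s - 1) v := by
  funext v
  by_cases h : v ∈ R
  · simp [h]
  · have hq : (2 : ℝ) ≤ (q v : ℝ) := by exact_mod_cast h2 v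
    have e : (q v : ℝ) ^ (-(s - 1)) = (q v : ℝ) ^ (-s) * q v := by
      have : -(s - 1) = -s + 1 := by ring
      rw [this, Real.rpow_add (by linarith), Real.rpow_one]
    simp only [h, if_false]
    unfold wt
    rw [e]
    field_simp

private lemma sumb {k : Type} [Field k] [NumberField k] (hA2 : StA2) (f : Pr k → ℝ) (A : ℝ)
    (hf : ∀ v, |f v| ≤ A) (s : ℝ) (hs : 1 < s) : Summable (fun v => f v * wt s v) := by
  refine Summable.of_norm_bounded (g := fun v => A * wt s v) (((hA2 k).1 s hs).mul_left A) ?_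
  intro v
  rw [Real.norm_eq_abs, abs_mul, abs_of_nonneg (wt_nonneg s v)]
  exact mul_le_mul_of_nonneg_right (hf v) (wt_nonneg s v)

private lemma sumb_le {k : Type} [Field k] [NumberField k] (hA2 : StA2) (f : Pr k → ℝ) (A : ℝ)
    (hf : ∀ v, |f v| ≤ A) (s : ℝ) (hs : 1 < s) :
    |∑' v : Pr k, f v * wt s v| ≤ A * ∑' v : Pr k, wt s v := by
  have h1 := sumb hA2 f A hf s hs
  have h0 := (hA2 k).1 s hs
  rw [abs_le, ← tsum_mul_left, ← tsum_neg]
  constructor
  · refine Summable.tsum_le_tsum (fun v => ?_) (h0.mul_left A).neg h1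
    have := (abs_le.1 (hf v)).1
    nlinarith [wt_nonneg s v]
  · refine Summable.tsum_le_tsum (fun v => ?_) h1 (h0.mul_left A)
    have := (abs_le.1 (hf v)).2
    nlinarith [wt_nonneg s v]

/-- bounded, and `O(1/q)` outside a finite set -/
private lemma near_bd {k : Type} [Field k] [NumberField k] (hA2 : StA2) (h2 : ∀ v : Pr k, 2 ≤ q v)
    (f : Pr k → ℝ) (A : ℝ) (hA : 0 ≤ A) (hf : ∀ v, |f v| ≤ A) (Z : Set (Pr k)) (hZ : Z.Finite)
    (hz : ∀ v, v ∉ Z → |f v| ≤ A / q v) : ∃ M : ℝ, ∀ s : ℝ, 1 < s → |∑' v, f v * wt s v| ≤ M := by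
  have sZ : Summable (fun v : Pr k => if v ∈ Z then A else 0) := by
    refine summable_of_ne_finset_zero (s := hZ.toFinset) fun v hv => ?_
    rw [Set.Finite.mem_toFinset] at hv
    rw [if_neg hv]
  have s2 : Summable (fun v : Pr k => A * wt 2 v) := ((hA2 k).1 2 (by norm_num)).mul_left A
  refine ⟨∑' v : Pr k, (A * wt 2 v + if v ∈ Z then A else 0), fun s hs => ?_⟩
  have hb : ∀ v : Pr k, |f v * wt s v| ≤ A * wt 2 v + if v ∈ Z then A else 0 := by
    intro v
    rw [abs_mul, abs_of_nonneg (wt_nonneg s v)]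
    have hw2 := wt_nonneg 2 v
    have hws := wt_nonneg s v
    by_cases hv : v ∈ Z
    · rw [if_pos hv]
      have h1 := wt_le_one h2 s hs.le v
      have h3 : |f v| * wt s v ≤ A * 1 := mul_le_mul (hf v) h1 hws hA
      nlinarith
    · rw [if_neg hv, add_zero]
      have hq : (2 : ℝ) ≤ (q v : ℝ) := by exact_mod_cast h2 v
      have h3 : wt s v / q v ≤ wt 2 v := by
        unfold wt
        rw [mul_div_assoc]
        refine mul_le_mul_of_nonneg_left ?_ (Real.log_natCast_nonneg _)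
        rw [div_le_iff₀ (by linarith)]
        have e : (q v : ℝ) ^ (-2 : ℝ) * q v = (q v : ℝ) ^ (-1 : ℝ) := by
          have : (-1 : ℝ) = -2 + 1 := by norm_num
          rw [this, Real.rpow_add (by linarith), Real.rpow_one]
        rw [e]
        exact Real.rpow_le_rpow_of_exponent_le (by linarith) (by linarith)
      calc |f v| * wt s v ≤ A / q v * wt s v := mul_le_mul_of_nonneg_right (hz v hv) hws
        _ = A * (wt s v / q v) := by ring
        _ ≤ A * wt 2 v := mul_le_mul_of_nonneg_left h3 hA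
  have h5 : Summable (fun v : Pr k => f v * wt s v) := sumb hA2 f A hf s hs
  have h6 := s2.add sZ
  rw [abs_le, ← tsum_neg]
  constructor
  · refine Summable.tsum_le_tsum (fun v => ?_) h6.neg h5
    exact (abs_le.1 (hb v)).1
  · refine Summable.tsum_le_tsum (fun v => ?_) h5 h6
    exact (abs_le.1 (hb v)).2

private lemma mul_bdd_tendsto (g : ℝ → ℝ) (M : ℝ) (hg : ∀ s : ℝ, 1 < s → |g s| ≤ M) :
    Tendsto (fun s : ℝ => (s - 1) * g s) (𝓝[>] 1) (𝓝 0) := by
  have h1 : Tendsto (fun s : ℝ => (s - 1) * M) (𝓝[>] 1) (𝓝 0) := by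
    have : Tendsto (fun s : ℝ => (s - 1) * M) (𝓝 1) (𝓝 ((1 - 1) * M)) :=
      (Continuous.tendsto (by fun_prop) 1)
    rw [sub_self, zero_mul] at this
    exact this.mono_left nhdsWithin_le_nhds
  refine squeeze_zero_norm' ?_ h1
  filter_upwards [self_mem_nhdsWithin] with s hs
  have hs' : (1 : ℝ) < s := hs
  rw [Real.norm_eq_abs, abs_mul, abs_of_pos (by linarith : (0 : ℝ) < s - 1)]
  exact mul_le_mul_of_nonneg_left (hg s hs') (by linarith)

private theorem shift_tend : Tendsto (fun s : ℝ => s - 1) (𝓝[>] 2) (𝓝[>] 1) := by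
  refine tendsto_nhdsWithin_iff.2 ⟨?_, ?_⟩
  · have : Tendsto (fun s : ℝ => s - 1) (𝓝 2) (𝓝 (2 - 1)) :=
      (continuous_id.sub continuous_const).tendsto 2
    rw [show (2 : ℝ) - 1 = 1 by norm_num] at this
    exact this.mono_left nhdsWithin_le_nhds
  · filter_upwards [self_mem_nhdsWithin] with s hs
    have : (2 : ℝ) < s := hs
    show (1 : ℝ) < s - 1
    linarith

/-! ## Main -/

theorem hB3 (hA2 : StA2) (hG3 : StG3) (hP6 : StP6) (hQ2 : StQ2) (hC1 : StC1) (hC2 : StC2)
    (hB0 : StB0) (hB2 : StB2) : StB3 := by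
  intro k _ _ b c B C R₀ hR₀ hb L _ _ _ _ ι _ K _ _ _ _ _ bK R hR htr hbK hbeq
  have h2 : ∀ v : Pr k, 2 ≤ q v := (hC1 k k).2.2.2
  have h2K : ∀ i, ∀ v : Pr (K i), 2 ≤ q v := fun i => (hC1 (K i) (K i)).2.2.2
  obtain ⟨hAs, hAt⟩ := hA2 k
  obtain ⟨σ, hσ⟩ := hB0 k L
  have hqpos : ∀ v : Pr k, (0 : ℝ) < q v := fun v => by
    have : (2 : ℝ) ≤ (q v : ℝ) := by exact_mod_cast h2 v
    linarith
  have hqposK : ∀ i, ∀ v : Pr (K i), (0 : ℝ) < q v := fun i v => by
    have : (2 : ℝ) ≤ (q v : ℝ) := by exact_mod_cast h2K i v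
    linarith
  -- the group functions
  obtain ⟨φ, hφ⟩ : ∃ φ : ι → (L ≃ₐ[k] L) → ℝ, ∀ i g, φ i g = fxK k (K i) g - 1 :=
    ⟨fun i g => fxK k (K i) g - 1, fun _ _ => rfl⟩
  have hφ' : ∀ i, φ i = fun g => fxK k (K i) g - 1 := fun i => funext (hφ i)
  have hDivN : ∀ i, Div (fun g : L ≃ₐ[k] L => fxK k (K i) g) := by
    intro i
    letI := act k (K i) L
    have : Fintype (K i →ₐ[k] L) := Fintype.ofFinite _
    have h := (hG3 (L ≃ₐ[k] L)).1 (K i →ₐ[k] L)
    have e : (fun g : L ≃ₐ[k] L => fx (K i →ₐ[k] L) g) = fun g => fxK k (K i) g :=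
      funext fun g => act_fx k (K i) L g
    rw [e] at h
    exact h
  have havN : ∀ i, avg (fun g : L ≃ₐ[k] L => fxK k (K i) g) = 1 := by
    intro i
    letI := act k (K i) L
    have h := burnside (G := L ≃ₐ[k] L) (K i →ₐ[k] L) ⟨IsScalarTower.toAlgHom k (K i) L⟩
      (fun x y => by
        obtain ⟨g, hg⟩ := trans_emb x y
        exact ⟨g, AlgHom.ext hg⟩)
    have e : (fun g : L ≃ₐ[k] L => fx (K i →ₐ[k] L) g) = fun g => fxK k (K i) g :=
      funext fun g => act_fx k (K i) L g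
    rw [e] at h
    exact h
  have havNN : ∀ i j, i ≠ j →
      avg (fun g : L ≃ₐ[k] L => fxK k (K i) g * fxK k (K j) g) = 1 := by
    intro i j hij
    letI := act k (K i) L
    letI := act k (K j) L
    have h := burnside (G := L ≃ₐ[k] L) ((K i →ₐ[k] L) × (K j →ₐ[k] L))
      ⟨(IsScalarTower.toAlgHom k (K i) L, IsScalarTower.toAlgHom k (K j) L)⟩
      (fun x y => by
        obtain ⟨g, hg1, hg2⟩ := htr i j hij x.1 y.1 x.2 y.2
        exact ⟨g, Prod.ext (AlgHom.ext hg1) (AlgHom.ext hg2)⟩)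
    have e : (fun g : L ≃ₐ[k] L => fx ((K i →ₐ[k] L) × (K j →ₐ[k] L)) g) =
        fun g => fxK k (K i) g * fxK k (K j) g := by
      funext g
      rw [fx_prod]
      congr 1
      · exact act_fx k (K i) L g
      · exact act_fx k (K j) L g
    rw [e] at h
    exact h
  have hDφ : ∀ i, Div (φ i) := fun i => by
    rw [hφ' i]
    exact div_sub_const _ 1 (hDivN i)
  have havφ : ∀ i, avg (φ i) = 0 := by
    intro i
    rw [hφ' i, avg_sub, havN, avg_const, sub_self]
  obtain ⟨U, hU⟩ : ∃ U : ι → ℝ, ∀ i, U i = avg (fun g : L ≃ₐ[k] L => (fxK k (K i) g - 1) ^ 2) :=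
    ⟨_, fun _ => rfl⟩
  have havU : ∀ i j, avg (fun g => φ i g * φ j g) = if i = j then U i else 0 := by
    intro i j
    split_ifs with h
    · subst h
      rw [hU]
      congr 1
      funext g
      rw [hφ, sq]
    · have e : (fun g => φ i g * φ j g) = fun g : L ≃ₐ[k] L =>
          (fxK k (K i) g * fxK k (K j) g - fxK k (K i) g) - (fxK k (K j) g - 1) := by
        funext g
        rw [hφ, hφ]
        ring
      rw [e, avg_sub, avg_sub, avg_sub, havNN i j h, havN, havN, avg_const]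
      norm_num
  choose T hT0 hT using fun i => bdd (fun g : L ≃ₐ[k] L => fxK k (K i) g)
  choose Tf hTf0 hTf using fun i => bdd (φ i)
  obtain ⟨T', hT'0, hT'⟩ : ∃ T' : ℝ, 0 ≤ T' ∧ ∀ i, Tf i ≤ T' := by
    refine ⟨∑ i, Tf i, Finset.sum_nonneg fun i _ => hTf0 i, fun i => ?_⟩
    exact Finset.single_le_sum (f := Tf) (fun i _ => hTf0 i) (Finset.mem_univ i)
  -- the functions α, β, μ
  obtain ⟨α, hα⟩ : ∃ α : Pr k → ℝ, ∀ v, α v = if v ∈ R₀ then (0 : ℝ) else b v / q v :=
    ⟨_, fun _ => rfl⟩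
  obtain ⟨β, hβ⟩ : ∃ β : ∀ i, Pr (K i) → ℝ, ∀ i w, β i w = if w ∈ R i then (0 : ℝ) else bK i w / q w :=
    ⟨fun i w => if w ∈ R i then (0 : ℝ) else bK i w / q w, fun _ _ => rfl⟩
  obtain ⟨μ, hμ⟩ : ∃ μ : Pr k → ℝ, ∀ v, μ v = if v ∈ R₀ then (0 : ℝ) else b v / q v - c :=
    ⟨_, fun _ => rfl⟩
  have hμb : ∀ v, |μ v| ≤ |B| := by
    intro v
    rw [hμ]
    split_ifs with h
    · rw [abs_zero]; exact abs_nonneg _
    · have h1 := hb v h
      have e : b v / q v - c = (b v - c * q v) / q v := by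
        field_simp [(hqpos v).ne']
      rw [e, abs_div, abs_of_pos (hqpos v), div_le_iff₀ (hqpos v)]
      exact h1.trans (mul_le_mul_of_nonneg_right (le_abs_self B) (hqpos v).le)
  have hαμ : ∀ v, v ∉ R₀ → α v = c + μ v := by
    intro v h
    rw [hα, hμ, if_neg h, if_neg h]
    ring
  have hαb : ∀ v, |α v| ≤ |c| + |B| := by
    intro v
    by_cases h : v ∈ R₀
    · rw [hα, if_pos h, abs_zero]
      positivity
    · rw [hαμ v h]
      exact (abs_add_le _ _).trans (by linarith [hμb v])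
  have hβb : ∀ i w, |β i w| ≤ |C| := by
    intro i w
    rw [hβ]
    split_ifs with h
    · rw [abs_zero]; exact abs_nonneg _
    · rw [abs_div, abs_of_pos (hqposK i w), div_le_iff₀ (hqposK i w)]
      exact (hbK i w h).trans (mul_le_mul_of_nonneg_right (le_abs_self C) (hqposK i w).le)
  have hα' : (fun v : Pr k => if v ∈ R₀ then (0 : ℝ) else b v / q v) = α :=
    funext fun v => (hα v).symm
  have hβ' : ∀ i, (fun w : Pr (K i) => if w ∈ R i then (0 : ℝ) else bK i w / q w) = β i :=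
    fun i => funext fun w => (hβ i w).symm
  have hterm0 : ∀ s, (fun v : Pr k => if v ∈ R₀ then (0 : ℝ) else
      b v * Real.log (q v) * (q v : ℝ) ^ (-s)) = fun v => α v * wt (s - 1) v := by
    intro s
    rw [term_eq h2]
    funext v
    rw [hα]
  have htermi : ∀ i s, (fun w : Pr (K i) => if w ∈ R i then (0 : ℝ) else
      bK i w * Real.log (q w) * (q w : ℝ) ^ (-s)) = fun w => β i w * wt (s - 1) w := by
    intro i s
    rw [term_eq (h2K i)]
    funext w
    rw [hβ]
  have hFK0 : ∀ s, FK R₀ b s = ∑' v : Pr k, α v * wt (s - 1) v := by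
    intro s
    unfold FK
    rw [hterm0]
  have hFKi : ∀ i s, FK (R i) (bK i) s = ∑' v : Pr (K i), β i v * wt (s - 1) v := by
    intro i s
    unfold FK
    rw [htermi]
  refine ⟨?_, ?_, ?_⟩
  · intro s hs
    rw [hterm0]
    exact sumb hA2 α _ hαb (s - 1) (by linarith)
  · intro i s hs
    rw [htermi]
    exact sumb hA2 (β i) _ (hβb i) (s - 1) (by linarith)
  -- comparison of FK i with the sum over k
  have hcmp : ∀ i, ∃ M : ℝ, ∀ s : ℝ, 1 < s →
      |∑' w : Pr (K i), β i w * wt s w - ∑' v : Pr k, (fxK k (K i) (σ v) * α v) * wt s v| ≤ M := by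
    intro i
    obtain ⟨hS, hsum, M, hM⟩ := hC2 k (K i) (β i) |C| (hβb i)
    obtain ⟨R1, hR1, hR1'⟩ := hB2 k (K i) L
    obtain ⟨Z, hZ⟩ : ∃ Z : Set (Pr k), Z = (R₀ ∪ {v | ∃ w ∈ R i, Above w v}) ∪ R1 := ⟨_, rfl⟩
    have hZf : Z.Finite := by
      rw [hZ]
      refine (hR₀.union ?_).union hR1
      have : {v : Pr k | ∃ w ∈ R i, Above w v} ⊆ ⋃ w ∈ R i, {v | Above w v} := by
        intro v hv
        obtain ⟨w, hw, hwv⟩ := hv
        simp only [Set.mem_iUnion]
        exact ⟨w, hw, hwv⟩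
      refine Set.Finite.subset (Set.Finite.biUnion (hR i) ?_) this
      intro w _
      obtain ⟨v0, _, hu⟩ := (hC1 k (K i)).1 w
      refine (Set.finite_singleton v0).subset ?_
      intro v hv
      exact hu v hv
    obtain ⟨n, hn⟩ : ∃ n : ℝ, n = (Module.finrank k (K i) : ℝ) := ⟨_, rfl⟩
    have hn0 : 0 ≤ n := by rw [hn]; exact Nat.cast_nonneg _
    have hNn : ∀ v : Pr k, (N1 (K i) v : ℝ) ≤ n := by
      intro v
      rw [hn]
      exact_mod_cast (hS v).2
    have hgood : ∀ v, v ∉ Z → |S1 (β i) v - fxK k (K i) (σ v) * α v| ≤ n * |C| / q v := by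
      intro v hv
      have hv1 : v ∉ R₀ := fun h => hv (by rw [hZ]; exact Or.inl (Or.inl h))
      have hv2 : ∀ w, Above w v → w ∉ R i := fun w hw h =>
        hv (by rw [hZ]; exact Or.inl (Or.inr ⟨w, h, hw⟩))
      have hv3 : v ∉ R1 := fun h => hv (by rw [hZ]; exact Or.inr h)
      have hN := hR1' v hv3 (σ v) (hσ v)
      have : Finite {w : Pr (K i) // Deg1 w v} := by
        have := ((hC1 k (K i)).2.2.1 v).1
        have h3 : {w : Pr (K i) | Deg1 w v}.Finite := this.subset (fun w hw => hw.1)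
        exact h3
      have := Fintype.ofFinite {w : Pr (K i) // Deg1 w v}
      rw [← hN]
      have e : S1 (β i) v - (N1 (K i) v : ℝ) * α v =
          ∑ w : {w : Pr (K i) // Deg1 w v}, (β i w.1 - α v) := by
        rw [Finset.sum_sub_distrib, Finset.sum_const, nsmul_eq_mul, Finset.card_univ,
          ← Nat.card_eq_fintype_card]
        unfold S1
        rw [finsum_eq_sum_of_fintype]
        rfl
      rw [e]
      refine (Finset.abs_sum_le_sum_abs _ _).trans ?_
      have h5 : ∀ w ∈ (Finset.univ : Finset {w : Pr (K i) // Deg1 w v}),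
          |β i w.1 - α v| ≤ |C| / q v := by
        intro w _
        have hw := hv2 w.1 w.2.1
        rw [hβ, hα, if_neg hw, if_neg hv1, w.2.2, ← sub_div, abs_div, abs_of_pos (hqpos v)]
        exact div_le_div_of_nonneg_right ((hbeq i w.1 v hw w.2).trans (le_abs_self C)) (hqpos v).le
      refine (Finset.sum_le_sum h5).trans ?_
      rw [Finset.sum_const, nsmul_eq_mul, Finset.card_univ, ← Nat.card_eq_fintype_card, mul_div_assoc]
      refine mul_le_mul_of_nonneg_right (hNn v) (div_nonneg (abs_nonneg _) (hqpos v).le)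
    obtain ⟨A, hA⟩ : ∃ A : ℝ, A = |C| * n + T i * (|c| + |B|) := ⟨_, rfl⟩
    have hbd : ∀ v, |S1 (β i) v - fxK k (K i) (σ v) * α v| ≤ A := by
      intro v
      have h1 : |S1 (β i) v| ≤ |C| * n :=
        ((hS v).1).trans (mul_le_mul_of_nonneg_left (hNn v) (abs_nonneg C))
      have h3 : |fxK k (K i) (σ v) * α v| ≤ T i * (|c| + |B|) := by
        rw [abs_mul]
        exact mul_le_mul (hT i _) (hαb v) (abs_nonneg _) (hT0 i)
      rw [hA]
      exact (abs_sub _ _).trans (add_le_add h1 h3)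
    have hA0 : 0 ≤ A := by
      rw [hA]
      have := hT0 i
      positivity
    obtain ⟨M', hM'⟩ := near_bd hA2 h2 _ A hA0 hbd Z hZf (fun v hv => by
      refine (hgood v hv).trans (div_le_div_of_nonneg_right ?_ (hqpos v).le)
      rw [hA, mul_comm n]
      have := hT0 i
      have h9 : 0 ≤ T i * (|c| + |B|) := by positivity
      linarith)
    refine ⟨M + M', fun s hs => ?_⟩
    have hs1 : Summable (fun v : Pr k => S1 (β i) v * wt s v) := (hsum s hs).2
    have hs2 : Summable (fun v : Pr k => (fxK k (K i) (σ v) * α v) * wt s v) := by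
      refine sumb hA2 (fun v => fxK k (K i) (σ v) * α v) (T i * (|c| + |B|)) ?_ s hs
      intro v
      rw [abs_mul]
      exact mul_le_mul (hT i _) (hαb v) (abs_nonneg _) (hT0 i)
    have e : ∑' v : Pr k, (S1 (β i) v - fxK k (K i) (σ v) * α v) * wt s v =
        ∑' v : Pr k, S1 (β i) v * wt s v - ∑' v : Pr k, (fxK k (K i) (σ v) * α v) * wt s v := by
      rw [← hs1.tsum_sub hs2]
      congr 1
      funext v
      ring
    have h5 := hM s hs
    have h6 := hM' s hs
    rw [e] at h6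
    have := abs_add_le (∑' w : Pr (K i), β i w * wt s w - ∑' v : Pr k, S1 (β i) v * wt s v)
      (∑' v : Pr k, S1 (β i) v * wt s v - ∑' v : Pr k, (fxK k (K i) (σ v) * α v) * wt s v)
    rw [sub_add_sub_cancel] at this
    linarith
  -- limits
  have hP : ∀ ψ : (L ≃ₐ[k] L) → ℝ, Div ψ →
      Tendsto (fun s : ℝ => (s - 1) * ∑' v : Pr k, ψ (σ v) * wt s v) (𝓝[>] 1) (𝓝 (avg ψ)) :=
    fun ψ hψ => hP6 k L σ ∅ Set.finite_empty (fun v _ => hσ v) ψ hψ
  have hφb : ∀ i (v : Pr k), |φ i (σ v)| ≤ T' := fun i v => (hTf i _).trans (hT' i)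
  -- the functions y_i
  obtain ⟨y, hy⟩ : ∃ y : ι → ℝ → ℝ, ∀ i t, y i t =
      (t - 1) * ∑' v : Pr k, (μ v * φ i (σ v)) * wt t v := ⟨_, fun _ _ => rfl⟩
  have hyb : ∀ i (v : Pr k), |μ v * φ i (σ v)| ≤ |B| * T' := by
    intro i v
    rw [abs_mul]
    exact mul_le_mul (hμb v) (hφb i v) (abs_nonneg _) (abs_nonneg _)
  have hBess := hQ2 (Pr k) ι (fun t v => (t - 1) * wt t v) μ (fun i v => φ i (σ v)) U |B| T'
    (by
      filter_upwards [self_mem_nhdsWithin] with t ht
      have ht' : (1 : ℝ) < t := ht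
      exact ⟨fun v => mul_nonneg (by linarith) (wt_nonneg t v), (hAs t ht).mul_left _⟩)
    (by
      refine hAt.congr fun t => ?_
      rw [tsum_mul_left])
    hμb hφb
    (by
      intro i j
      have h1 := hP (fun g => φ i g * φ j g) (div_mul _ _ (hDφ i) (hDφ j))
      rw [havU] at h1
      refine h1.congr fun t => ?_
      rw [← tsum_mul_left]
      refine tsum_congr fun v => ?_
      ring)
  have hyB : ∀ i, ∀ᶠ t : ℝ in 𝓝[>] 1, |y i t| ≤ (|B| * T') * 2 := by
    intro i
    have h1 := hAt.eventually_le_const (show (1 : ℝ) < 2 by norm_num)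
    filter_upwards [h1, self_mem_nhdsWithin] with t ht1 ht
    have ht' : (1 : ℝ) < t := ht
    rw [hy, abs_mul, abs_of_pos (by linarith : (0 : ℝ) < t - 1)]
    have h3 := sumb_le hA2 (fun v => μ v * φ i (σ v)) (|B| * T') (hyb i) t ht
    have h0 : 0 ≤ |B| * T' := mul_nonneg (abs_nonneg _) hT'0
    calc (t - 1) * |∑' v : Pr k, (μ v * φ i (σ v)) * wt t v|
        ≤ (t - 1) * (|B| * T' * ∑' v : Pr k, wt t v) :=
          mul_le_mul_of_nonneg_left h3 (by linarith)
      _ = (|B| * T') * ((t - 1) * ∑' v : Pr k, wt t v) := by ring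
      _ ≤ (|B| * T') * 2 := mul_le_mul_of_nonneg_left ht1 h0
  -- the differences
  obtain ⟨Df, hDf⟩ : ∃ Df : ι → ℝ → ℝ, ∀ i s, Df i s =
    (s - 1) * ∑' w : Pr (K i), β i w * wt s w - (s - 1) * ∑' v : Pr k, α v * wt s v :=
    ⟨_, fun _ _ => rfl⟩
  have hdiff : ∀ i, Tendsto (fun s => Df i s - y i s) (𝓝[>] 1) (𝓝 0) := by
    intro i
    obtain ⟨M, hM⟩ := hcmp i
    have t1 := mul_bdd_tendsto _ M hM
    -- c times the mean of φ
    have t2 : Tendsto (fun s : ℝ => c * ((s - 1) * ∑' v : Pr k, φ i (σ v) * wt s v))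
        (𝓝[>] 1) (𝓝 0) := by
      have := (hP (φ i) (hDφ i)).const_mul c
      rwa [havφ, mul_zero] at this
    -- the finite set R₀
    have hz0 : ∀ v, v ∉ R₀ → (α v - c - μ v) * φ i (σ v) = 0 := by
      intro v hv
      rw [hαμ v hv]
      ring
    obtain ⟨A, hA⟩ : ∃ A : ℝ, A = ((|c| + |B|) + |c| + |B|) * T' := ⟨_, rfl⟩
    have hA0 : 0 ≤ A := by rw [hA]; positivity
    have hzb : ∀ v, |(α v - c - μ v) * φ i (σ v)| ≤ A := by
      intro v
      rw [hA, abs_mul]
      refine mul_le_mul ?_ (hφb i v) (abs_nonneg _) (by positivity)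
      have h1 := abs_sub (α v - c) (μ v)
      have h3 := abs_sub (α v) c
      have h4 := hαb v
      have h5 := hμb v
      linarith
    obtain ⟨M2, hM2⟩ := near_bd hA2 h2 _ A hA0 hzb R₀ hR₀ (fun v hv => by
      rw [hz0 v hv, abs_zero]
      exact div_nonneg hA0 (hqpos v).le)
    have t3 := mul_bdd_tendsto _ M2 hM2
    have t := (t1.add t2).add t3
    rw [add_zero, add_zero] at t
    refine t.congr' ?_
    filter_upwards [self_mem_nhdsWithin] with s hs
    have hs' : (1 : ℝ) < s := hs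
    have sα : Summable (fun v : Pr k => α v * wt s v) := sumb hA2 α _ hαb s hs'
    have sNα : Summable (fun v : Pr k => (fxK k (K i) (σ v) * α v) * wt s v) := by
      refine sumb hA2 (fun v => fxK k (K i) (σ v) * α v) (T i * (|c| + |B|)) ?_ s hs'
      intro v
      rw [abs_mul]
      exact mul_le_mul (hT i _) (hαb v) (abs_nonneg _) (hT0 i)
    have sμ : Summable (fun v : Pr k => (μ v * φ i (σ v)) * wt s v) :=
      sumb hA2 (fun v => μ v * φ i (σ v)) _ (hyb i) s hs'
    have sφ : Summable (fun v : Pr k => φ i (σ v) * wt s v) :=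
      sumb hA2 (fun v => φ i (σ v)) _ (hφb i) s hs'
    have ez : ∑' v : Pr k, ((α v - c - μ v) * φ i (σ v)) * wt s v =
        ∑' v : Pr k, (fxK k (K i) (σ v) * α v) * wt s v - ∑' v : Pr k, α v * wt s v -
          c * ∑' v : Pr k, φ i (σ v) * wt s v - ∑' v : Pr k, (μ v * φ i (σ v)) * wt s v := by
      rw [← tsum_mul_left, ← sNα.tsum_sub sα,
        ← (sNα.sub sα).tsum_sub (sφ.mul_left c),
        ← ((sNα.sub sα).sub (sφ.mul_left c)).tsum_sub sμ]
      refine tsum_congr fun v => ?_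
      rw [hφ]
      ring
    rw [hDf, hy, ez]
    ring
  intro ε hε
  have hBess2 := hBess (ε / 2) (by linarith)
  -- the error term
  have hE : Tendsto (fun s => ∑ i, (2 * y i s * (Df i s - y i s) + (Df i s - y i s) ^ 2) / U i)
      (𝓝[>] 1) (𝓝 (∑ i : ι, (0 : ℝ))) := by
    refine tendsto_finsetSum _ fun i _ => ?_
    have h1 : Tendsto (fun s => 2 * y i s * (Df i s - y i s)) (𝓝[>] 1) (𝓝 0) := by
      refine squeeze_zero_norm' (a := fun s => (2 * ((|B| * T') * 2)) * |Df i s - y i s|) ?_ ?_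
      · filter_upwards [hyB i] with s hs
        rw [Real.norm_eq_abs, abs_mul, abs_mul, abs_two]
        refine mul_le_mul_of_nonneg_right ?_ (abs_nonneg _)
        exact mul_le_mul_of_nonneg_left hs (by norm_num)
      · have := ((hdiff i).abs).const_mul (2 * ((|B| * T') * 2))
        simpa using this
    have h3 := (h1.add ((hdiff i).pow 2)).div_const (U i)
    simpa using h3
  rw [Finset.sum_const_zero] at hE
  have hE2 := hE.eventually_le_const (show (0 : ℝ) < ε / 2 by linarith)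
  have hmain : ∀ᶠ s : ℝ in 𝓝[>] 1, ∑ i, (Df i s) ^ 2 / U i ≤ B ^ 2 + ε := by
    filter_upwards [hBess2, hE2] with s g1 g2
    have e6 : ∀ i, (∑' v : Pr k, (s - 1) * wt s v * (μ v * φ i (σ v))) = y i s := by
      intro i
      rw [hy, ← tsum_mul_left]
      refine tsum_congr fun v => ?_
      ring
    simp only [e6] at g1
    have e7 : ∑ i, (Df i s) ^ 2 / U i = ∑ i, y i s ^ 2 / U i +
        ∑ i, (2 * y i s * (Df i s - y i s) + (Df i s - y i s) ^ 2) / U i := by
      rw [← Finset.sum_add_distrib]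
      refine Finset.sum_congr rfl fun i _ => ?_
      rw [← add_div]
      congr 1
      ring
    rw [e7]
    rw [sq_abs] at g1
    linarith
  filter_upwards [shift_tend.eventually hmain] with s hs
  refine le_trans (le_of_eq ?_) hs
  refine Finset.sum_congr rfl (fun i _ => ?_)
  rw [hDf, hFK0, hFKi, ← hU]
  have e : s - 1 - 1 = s - 2 := by ring
  rw [e]

end Pool.Agent.Helper78.TN
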